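import Mathlib
import Pool.Agent.Lib.helper9.Bern

set_option autoImplicit false

namespace Pool.Agent.Results.MP_e6ec33_pr.NotIdentity

open Filter Topology MeasureTheory ProbabilityTheory

/-- `P` is a family of vertex-disjoint paths of `H` covering all vertices. A path is a nonempty
list of distinct vertices in which consecutive vertices are adjacent (a single vertex is a path). -/
def IsPathCover {n : ℕ} (H : SimpleGraph (Fin n)) (P : Finset (List (Fin n))) : Prop :=
  (∀ l ∈ P, l ≠ [] ∧ l.Nodup ∧ l.IsChain H.Adj) ∧ ∀ v : Fin n, ∃! l, l ∈ P ∧ v ∈ l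

/-- the path cover number `μ(H)` -/
noncomputable def mu {n : ℕ} (H : SimpleGraph (Fin n)) : ℕ :=
  sInf {m | ∃ P, IsPathCover H P ∧ P.card = m}

/-- `f_k(G)`: the least number of edges of `G` whose deletion leaves path cover number `k` -/
noncomputable def f {n : ℕ} (k : ℕ) (G : SimpleGraph (Fin n)) : ℕ :=
  sInf {c | ∃ F : Finset (Sym2 (Fin n)), (F : Set (Sym2 (Fin n))) ⊆ G.edgeSet ∧
    mu (G.deleteEdges F) = k ∧ F.card = c}

open Classical in
/-- the minimum degree `δ(G)` -/
noncomputable def delta {n : ℕ} (G : SimpleGraph (Fin n)) : ℕ := G.minDegree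

variable {n : ℕ}

lemma exists_cover (H : SimpleGraph (Fin n)) : ∃ P, IsPathCover H P ∧ P.card = mu H := by
  have : {m | ∃ P, IsPathCover H P ∧ P.card = m}.Nonempty := by
    refine ⟨_, Finset.univ.image (fun v : Fin n => [v]), ⟨?_, ?_⟩, rfl⟩
    · intro l hl
      obtain ⟨v, -, rfl⟩ := Finset.mem_image.1 hl
      simp
    · intro v
      refine ⟨[v], by simp, ?_⟩
      rintro l ⟨hl, hv⟩
      obtain ⟨w, -, rfl⟩ := Finset.mem_image.1 hl
      simp only [List.mem_singleton] at hv
      rw [hv]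
  exact Nat.sInf_mem this

lemma mu_le {H : SimpleGraph (Fin n)} {P : Finset (List (Fin n))} (h : IsPathCover H P) :
    mu H ≤ P.card := Nat.sInf_le ⟨P, h, rfl⟩

lemma mu_mono {H K : SimpleGraph (Fin n)} (h : H ≤ K) : mu K ≤ mu H := by
  obtain ⟨P, hP, hc⟩ := exists_cover H
  rw [← hc]
  exact mu_le ⟨fun l hl => ⟨(hP.1 l hl).1, (hP.1 l hl).2.1,
    (hP.1 l hl).2.2.imp (fun _ _ hab => h hab)⟩, hP.2⟩

lemma chain_of_not_mem (H : SimpleGraph (Fin n)) (e : Sym2 (Fin n)) (a : Fin n) (ha : a ∈ e) :
    ∀ l : List (Fin n), l.IsChain H.Adj → a ∉ l → l.IsChain (H.deleteEdges {e}).Adj := by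
  intro l hl hal
  refine hl.imp_of_mem_imp ?_
  intro x y hx hy hxy
  rw [SimpleGraph.deleteEdges_adj]
  refine ⟨hxy, ?_⟩
  intro h
  rw [Set.mem_singleton_iff] at h
  rw [← h, Sym2.mem_iff] at ha
  rcases ha with rfl | rfl
  · exact hal hx
  · exact hal hy

lemma split (H : SimpleGraph (Fin n)) (e : Sym2 (Fin n)) :
    ∀ l : List (Fin n), l.Nodup → l.IsChain H.Adj → l.IsChain (H.deleteEdges {e}).Adj ∨
      ∃ l1 l2, l = l1 ++ l2 ∧ l1 ≠ [] ∧ l2 ≠ [] ∧ l1.IsChain (H.deleteEdges {e}).Adj ∧
        l2.IsChain (H.deleteEdges {e}).Adj ∧ ∃ a ∈ e, a ∈ l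
  | [], _, _ => Or.inl List.isChain_nil
  | [a], _, _ => Or.inl (List.isChain_singleton a)
  | a :: b :: t, hn, hc => by
    rw [List.isChain_cons_cons] at hc
    have hn' := List.nodup_cons.1 hn
    by_cases he : s(a, b) = e
    · right
      refine ⟨[a], b :: t, rfl, by simp, by simp, List.isChain_singleton a,
        chain_of_not_mem H e a (by rw [← he]; simp) _ hc.2 hn'.1, a, by rw [← he]; simp, by simp⟩
    · have hab : (H.deleteEdges {e}).Adj a b := by
        rw [SimpleGraph.deleteEdges_adj]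
        exact ⟨hc.1, by simpa using he⟩
      rcases split H e (b :: t) hn'.2 hc.2 with h | ⟨l1, l2, h1, h2, h3, h4, h5, x, hx, hx'⟩
      · left
        exact List.isChain_cons_cons.2 ⟨hab, h⟩
      · right
        refine ⟨a :: l1, l2, by rw [h1]; rfl, by simp, h3, ?_, h5, x, hx, List.mem_cons_of_mem _ hx'⟩
        obtain ⟨c, l1', rfl⟩ := List.exists_cons_of_ne_nil h2
        have : b = c := by simpa using (List.cons_eq_cons.1 h1).1
        subst this
        exact List.isChain_cons_cons.2 ⟨hab, h4⟩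

lemma both (H : SimpleGraph (Fin n)) (e : Sym2 (Fin n)) (l : List (Fin n)) (hc : l.IsChain H.Adj)
    (h : ¬ l.IsChain (H.deleteEdges {e}).Adj) : ∀ a ∈ e, a ∈ l := by
  intro a ha
  by_contra hal
  exact h (chain_of_not_mem H e a ha l hc hal)

lemma mu_delete_one (H : SimpleGraph (Fin n)) (e : Sym2 (Fin n)) :
    mu (H.deleteEdges {e}) ≤ mu H + 1 := by
  obtain ⟨P, hP, hc⟩ := exists_cover H
  by_cases hall : ∀ l ∈ P, l.IsChain (H.deleteEdges {e}).Adj
  · have := mu_le (H := H.deleteEdges {e}) (P := P)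
      ⟨fun l hl => ⟨(hP.1 l hl).1, (hP.1 l hl).2.1, hall l hl⟩, hP.2⟩
    omega
  push Not at hall
  obtain ⟨l0, hl0, hbad⟩ := hall
  rcases split H e l0 (hP.1 l0 hl0).2.1 (hP.1 l0 hl0).2.2 with h | ⟨l1, l2, h1, h2, h3, h4, h5, x, hx, hx'⟩
  · exact absurd h hbad
  have hnd : (l1 ++ l2).Nodup := h1 ▸ (hP.1 l0 hl0).2.1
  have hnd' := List.nodup_append.1 hnd
  have hcov : IsPathCover (H.deleteEdges {e}) (insert l1 (insert l2 (P.erase l0))) := by
    constructor
    · intro l hl
      rcases Finset.mem_insert.1 hl with rfl | hl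
      · exact ⟨h2, hnd'.1, h4⟩
      rcases Finset.mem_insert.1 hl with rfl | hl
      · exact ⟨h3, hnd'.2.1, h5⟩
      have hl' := Finset.mem_erase.1 hl
      refine ⟨(hP.1 l hl'.2).1, (hP.1 l hl'.2).2.1, ?_⟩
      by_contra hb
      have := both H e l (hP.1 l hl'.2).2.2 hb x hx
      exact hl'.1 ((hP.2 x).unique ⟨hl'.2, this⟩ ⟨hl0, hx'⟩)
    · intro v
      obtain ⟨l, ⟨hl, hv⟩, huniq⟩ := hP.2 v
      have key : ∀ m, m ∈ P.erase l0 → v ∈ m → v ∉ l0 := by
        intro m hm hvm hv0
        have hm' := Finset.mem_erase.1 hm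
        exact hm'.1 ((huniq m ⟨hm'.2, hvm⟩).trans (huniq l0 ⟨hl0, hv0⟩).symm)
      by_cases hl0' : l = l0
      · subst hl0'
        have hv' := hv
        rw [h1, List.mem_append] at hv'
        rcases hv' with hv1 | hv2
        · refine ⟨l1, ⟨by simp, hv1⟩, ?_⟩
          rintro m ⟨hm, hvm⟩
          rcases Finset.mem_insert.1 hm with rfl | hm
          · rfl
          rcases Finset.mem_insert.1 hm with rfl | hm
          · exact absurd rfl (hnd'.2.2 v hv1 v hvm)
          · exact absurd hv (key m hm hvm)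
        · refine ⟨l2, ⟨by simp, hv2⟩, ?_⟩
          rintro m ⟨hm, hvm⟩
          rcases Finset.mem_insert.1 hm with rfl | hm
          · exact absurd rfl (hnd'.2.2 v hvm v hv2)
          rcases Finset.mem_insert.1 hm with rfl | hm
          · rfl
          · exact absurd hv (key m hm hvm)
      · have hv0 : v ∉ l0 := key l (Finset.mem_erase.2 ⟨hl0', hl⟩) hv
        refine ⟨l, ⟨by simp [hl0', hl], hv⟩, ?_⟩
        rintro m ⟨hm, hvm⟩
        rcases Finset.mem_insert.1 hm with rfl | hm
        · exact absurd (by rw [h1]; exact List.mem_append_left _ hvm) hv0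
        rcases Finset.mem_insert.1 hm with rfl | hm
        · exact absurd (by rw [h1]; exact List.mem_append_right _ hvm) hv0
        · exact huniq m ⟨(Finset.mem_erase.1 hm).2, hvm⟩
  have h6 := mu_le hcov
  have h7 := Finset.card_insert_le l1 (insert l2 (P.erase l0))
  have h8 := Finset.card_insert_le l2 (P.erase l0)
  have h9 := Finset.card_erase_add_one hl0
  omega

lemma ivt (G : SimpleGraph (Fin n)) (k : ℕ) (hG : mu G ≤ k) (F : Finset (Sym2 (Fin n))) :
    k ≤ mu (G.deleteEdges F) → ∃ F' ⊆ F, mu (G.deleteEdges F') = k := by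
  induction F using Finset.induction_on with
  | empty =>
    intro h
    refine ⟨∅, by simp, le_antisymm ?_ h⟩
    simpa using hG
  | insert e F _ ih =>
    intro h
    by_cases h' : k ≤ mu (G.deleteEdges F)
    · obtain ⟨F', h1, h2⟩ := ih h'
      exact ⟨F', h1.trans (Finset.subset_insert _ _), h2⟩
    · refine ⟨insert e F, le_rfl, le_antisymm ?_ h⟩
      have h1 := mu_delete_one (G.deleteEdges F) e
      rw [SimpleGraph.deleteEdges_deleteEdges] at h1
      have h2 : ((insert e F : Finset (Sym2 (Fin n))) : Set (Sym2 (Fin n))) = (F : Set _) ∪ {e} := by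
        rw [Finset.coe_insert, Set.union_singleton]
      rw [h2]
      omega

lemma nbr (H : SimpleGraph (Fin n)) (v w : Fin n) (hvw : v ≠ w) :
    ∀ l : List (Fin n), l.IsChain H.Adj → v ∈ l → w ∈ l → ∃ x, H.Adj v x := by
  have key : ∀ (l : List (Fin n)) (a : Fin n), (a :: l).IsChain H.Adj → v ∈ l → ∃ x, H.Adj v x := by
    intro l
    induction l with
    | nil => simp
    | cons b t ih =>
      intro a hc hv
      rw [List.isChain_cons_cons] at hc
      rcases List.mem_cons.1 hv with rfl | hv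
      · exact ⟨a, hc.1.symm⟩
      · exact ih b hc.2 hv
  intro l hc hv hw
  match l, hc, hv, hw with
  | [a], _, hv, hw => simp_all
  | a :: b :: t, hc, hv, _ =>
    rcases List.mem_cons.1 hv with rfl | hv
    · exact ⟨b, (List.isChain_cons_cons.1 hc).1⟩
    · exact key _ a hc hv

lemma two_le (hn : 2 ≤ n) (H : SimpleGraph (Fin n)) (v : Fin n) (hv : ∀ x, ¬ H.Adj v x) :
    2 ≤ mu H := by
  obtain ⟨P, hP, hc⟩ := exists_cover H
  have : Nontrivial (Fin n) := Fin.nontrivial_iff_two_le.2 hn
  obtain ⟨w, hw⟩ := exists_ne v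
  obtain ⟨l, ⟨hl, hvl⟩, -⟩ := hP.2 v
  obtain ⟨m, ⟨hm, hwm⟩, -⟩ := hP.2 w
  rw [← hc]
  refine Finset.one_lt_card.2 ⟨l, hl, m, hm, ?_⟩
  rintro rfl
  obtain ⟨x, hx⟩ := nbr H v w hw.symm l (hP.1 l hl).2.2 hvl hwm
  exact hv x hx

/-- deterministic bound: `f_2(G) ≤ δ(G)` -/
lemma f_two_le (hn : 2 ≤ n) (G : SimpleGraph (Fin n)) : f 2 G ≤ delta G := by
  classical
  by_cases hG : mu G ≤ 2
  · have : Nonempty (Fin n) := ⟨⟨0, by omega⟩⟩
    obtain ⟨v, hv⟩ := G.exists_minimal_degree_vertex
    obtain ⟨F, hF, hF2⟩ := ivt G 2 hG (G.incidenceFinset v) (two_le hn _ v (by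
      intro x hx
      rw [SimpleGraph.deleteEdges_adj] at hx
      exact hx.2 (by simpa using hx.1)))
    have h1 : f 2 G ≤ F.card := Nat.sInf_le ⟨F, by
      intro e he
      have := hF he
      rw [SimpleGraph.mem_incidenceFinset] at this
      exact this.1, hF2, rfl⟩
    have h2 := Finset.card_le_card hF
    rw [SimpleGraph.card_incidenceFinset_eq_degree] at h2
    have h3 : delta G = G.degree v := by
      rw [← hv, delta]
    omega
  · have : f 2 G = 0 := by
      refine Nat.sInf_eq_zero.2 (Or.inr ?_)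
      ext c
      simp only [Set.mem_ofPred_eq, Set.mem_empty_iff_false, iff_false]
      rintro ⟨F, -, h, -⟩
      have := mu_mono (SimpleGraph.deleteEdges_le (G := G) (F : Set (Sym2 (Fin n))))
      omega
    omega

lemma prob_le (hn : 2 ≤ n) (p : unitInterval) (x : ℝ) (hx0 : 0 < x) (hx1 : x ≤ 1) :
    (SimpleGraph.binomialRandom (Fin n) p).real {G | delta G ≤ 2} ≤
      n * (((p : ℝ) * x + (1 - p)) ^ (n - 1) / x ^ 2) := by
  classical
  set u : Finset (Sym2 (Fin n)) := Finset.univ.filter (fun e => ¬ e.IsDiag) with hu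
  have hu' : (Sym2.diagSetᶜ : Set (Sym2 (Fin n))) = (u : Set _) := by
    ext e; simp [hu]
  rw [measureReal_def, SimpleGraph.binomialRandom_apply', ← measureReal_def, hu', H9B.setBer_real]
  let w : Fin n → Sym2 (Fin n) → ℝ := fun v e => if v ∈ e then x else 1
  have hw : ∀ v e, 0 ≤ w v e := fun v e => by simp only [w]; split_ifs <;> linarith
  have hp0 := p.2.1
  have hp1 := p.2.2
  calc _ ≤ ∑ s ∈ u.powerset, ∑ v : Fin n, (H9B.wt u p s * ∏ e ∈ s, w v e) / x ^ 2 := by
        refine Finset.sum_le_sum fun s hs => ?_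
        have hterm : ∀ v, 0 ≤ (H9B.wt u p s * ∏ e ∈ s, w v e) / x ^ 2 := fun v =>
          div_nonneg (mul_nonneg (H9B.wt_nonneg u hp0 hp1 s) (Finset.prod_nonneg fun e _ => hw v e))
            (by positivity)
        split_ifs with hS
        · obtain ⟨G, hG, hGs⟩ := hS
          have : Nonempty (Fin n) := ⟨⟨0, by omega⟩⟩
          obtain ⟨v, hv⟩ := G.exists_minimal_degree_vertex
          have h3 : delta G = G.degree v := by
            rw [← hv, delta]
          have h4 : G.degree v ≤ 2 := h3 ▸ hG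
          refine le_trans ?_ (Finset.single_le_sum (fun v _ => hterm v) (Finset.mem_univ v))
          have h5 : ∏ e ∈ s, w v e = x ^ G.degree v := by
            simp only [w]
            rw [Finset.prod_ite, Finset.prod_const, Finset.prod_const_one, mul_one,
              ← SimpleGraph.card_incidenceFinset_eq_degree]
            congr 2
            ext e
            rw [SimpleGraph.mem_incidenceFinset, Finset.mem_filter, SimpleGraph.incidenceSet,
              Set.mem_sep_iff, hGs, Finset.mem_coe]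
          rw [h5, le_div_iff₀ (by positivity)]
          exact mul_le_mul_of_nonneg_left (pow_le_pow_of_le_one hx0.le hx1 h4)
            (H9B.wt_nonneg u hp0 hp1 s)
        · exact Finset.sum_nonneg fun v _ => hterm v
    _ = ∑ v : Fin n, (∏ e ∈ u, ((p : ℝ) * w v e + (1 - p))) / x ^ 2 := by
        rw [Finset.sum_comm]
        refine Finset.sum_congr rfl fun v _ => ?_
        rw [← Finset.sum_div, H9B.sum_wt_prod]
    _ = ∑ v : Fin n, ((p : ℝ) * x + (1 - p)) ^ (n - 1) / x ^ 2 := by
        refine Finset.sum_congr rfl fun v _ => ?_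
        congr 1
        have : ∀ e, (p : ℝ) * w v e + (1 - p) = if v ∈ e then (p : ℝ) * x + (1 - p) else 1 := by
          intro e
          simp only [w]
          split_ifs <;> ring
        simp only [this]
        rw [Finset.prod_ite, Finset.prod_const, Finset.prod_const_one, mul_one]
        congr 1
        have h1 := SimpleGraph.card_incidenceFinset_eq_degree (⊤ : SimpleGraph (Fin n)) v
        rw [SimpleGraph.complete_graph_degree, Fintype.card_fin] at h1
        rw [← h1]
        congr 1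
        ext e
        rw [SimpleGraph.mem_incidenceFinset, Finset.mem_filter, SimpleGraph.incidenceSet,
          Set.mem_sep_iff]
        simp [hu]
    _ = _ := by simp

lemma bound (hn : 2 ≤ n) (p : unitInterval) (hy : 1 ≤ (n : ℝ) * p) :
    (SimpleGraph.binomialRandom (Fin n) p).real {G | delta G ≤ 2} ≤
      Real.exp (2 - ((n : ℝ) * p - Real.log n - 2 * Real.log ((n : ℝ) * p))) := by
  set y : ℝ := (n : ℝ) * p with hydef
  have hy0 : 0 < y := by linarith
  have hp0 := p.2.1
  have hp1 := p.2.2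
  have hx1 : 1 / y ≤ 1 := (div_le_one hy0).2 hy
  have hx0 : 0 < 1 / y := by positivity
  refine (prob_le hn p (1 / y) hx0 hx1).trans ?_
  have hn0 : (0 : ℝ) < n := by exact_mod_cast (by omega : 0 < n)
  have h1 : (p : ℝ) * (1 / y) + (1 - p) ≤ Real.exp (-(p * (1 - 1 / y))) := by
    have := Real.add_one_le_exp (-((p : ℝ) * (1 - 1 / y)))
    linarith
  have h2 : ((p : ℝ) * (1 / y) + (1 - p)) ^ (n - 1) ≤ Real.exp (2 - y) := by
    refine (pow_le_pow_left₀ (by nlinarith) h1 _).trans ?_
    rw [← Real.exp_nat_mul, Real.exp_le_exp, Nat.cast_sub (by omega)]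
    have h3 : (n : ℝ) * (p * (1 / y)) = 1 := by
      rw [← mul_assoc, ← hydef]; field_simp
    push_cast
    nlinarith
  have h4 : Real.exp (2 - (y - Real.log n - 2 * Real.log y)) = n * (Real.exp (2 - y) / (1 / y) ^ 2) := by
    rw [show 2 - (y - Real.log n - 2 * Real.log y) = (2 - y) + Real.log n + Real.log y + Real.log y by
      ring, Real.exp_add, Real.exp_add, Real.exp_add, Real.exp_log hn0, Real.exp_log hy0]
    field_simp
  rw [h4]
  gcongr

theorem result (p : ℕ → unitInterval)
    (hp : Tendsto (fun n : ℕ => (n : ℝ) * p n - Real.log n - 2 * Real.log (Real.log n))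
      atTop atTop) :
    Tendsto (fun n : ℕ => (n : ℝ) * p n - Real.log n - Real.log (Real.log n)) atTop atTop ∧
    (∀ n, 2 ≤ n → ∀ G : SimpleGraph (Fin n), f 2 G ≤ delta G) ∧
    Tendsto (fun n : ℕ => (SimpleGraph.binomialRandom (Fin n) (p n)).real
      {G | (f 2 G : ℤ) = 2 * ((delta G : ℤ) - 1)}) atTop (𝓝 0) := by
  have hlog : Tendsto (fun n : ℕ => Real.log n) atTop atTop :=
    Real.tendsto_log_atTop.comp tendsto_natCast_atTop_atTop
  have hll : Tendsto (fun n : ℕ => Real.log (Real.log n)) atTop atTop :=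
    Real.tendsto_log_atTop.comp hlog
  refine ⟨?_, fun n hn G => f_two_le hn G, ?_⟩
  · refine tendsto_atTop_mono' _ ?_ hp
    filter_upwards [hll.eventually_ge_atTop 0] with n hn
    linarith
  have hw : Tendsto (fun w : ℝ => w - 2 * Real.log (3 + w)) atTop atTop := by
    refine tendsto_atTop_mono' _ (f₁ := fun w : ℝ => w / 2 - 4) ?_ ?_
    · filter_upwards [eventually_ge_atTop (0 : ℝ)] with w hw
      have h1 : Real.log ((3 + w) / 4) ≤ (3 + w) / 4 - 1 := Real.log_le_sub_one_of_pos (by positivity)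
      rw [Real.log_div (by positivity) (by norm_num)] at h1
      have h2 : Real.log 4 ≤ 2 := by
        have : Real.log 4 = 2 * Real.log 2 := by
          rw [show (4 : ℝ) = 2 ^ 2 by norm_num, Real.log_pow]; norm_num
        have := Real.log_two_lt_d9
        linarith
      linarith
    · exact tendsto_atTop_add_const_right _ (-4) (tendsto_id.atTop_div_const (by norm_num))
  have hlim : Tendsto (fun n : ℕ => Real.exp (2 - ((fun w : ℝ => w - 2 * Real.log (3 + w))
      ((n : ℝ) * p n - Real.log n - 2 * Real.log (Real.log n))))) atTop (𝓝 0) := by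
    refine Real.tendsto_exp_atBot.comp ?_
    exact tendsto_atBot_add_const_left _ 2 (tendsto_neg_atTop_atBot.comp (hw.comp hp))
  refine squeeze_zero' (Eventually.of_forall fun n => measureReal_nonneg) ?_ hlim
  filter_upwards [eventually_ge_atTop 2, hlog.eventually_ge_atTop 1, hll.eventually_ge_atTop 0,
    hp.eventually_ge_atTop 0] with n hn h1 h2 h3
  have hsub : {G : SimpleGraph (Fin n) | (f 2 G : ℤ) = 2 * ((delta G : ℤ) - 1)} ⊆
      {G | delta G ≤ 2} := by
    intro G hG
    have := f_two_le hn G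
    simp only [Set.mem_ofPred_eq] at hG ⊢
    omega
  refine (measureReal_mono hsub).trans ((bound hn (p n) (by linarith)).trans ?_)
  rw [Real.exp_le_exp]
  set L := Real.log n
  set y := (n : ℝ) * p n
  set w := y - L - 2 * Real.log L with hw
  have h4 : Real.log L ≤ L := (Real.log_le_sub_one_of_pos (by linarith)).trans (by linarith)
  have h5 : y ≤ L * (3 + w) := by nlinarith
  have h6 : Real.log y ≤ Real.log L + Real.log (3 + w) := by
    rw [← Real.log_mul (by linarith) (by linarith)]
    exact Real.log_le_log (by linarith) h5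
  linarith

end Pool.Agent.Results.MP_e6ec33_pr.NotIdentity
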